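import Mathlib

namespace Pool.Agent.Results.MP_ff6929_pr.NotHamiltonian

open Finset Equiv Filter Topology

/-- one perfect matching (a bijection between the fibres) for each arc of the complete digraph -/
abbrev Lift (n : ℕ) := {e : Fin 3 × Fin 3 // e.1 ≠ e.2} → Perm (Fin n)

/-- the arcs of the lift; `(x, a)` is the vertex number `a` of the fibre over `x` -/
def Arc {n : ℕ} (M : Lift n) (v w : Fin 3 × Fin n) : Prop :=
  ∃ h : v.1 ≠ w.1, M ⟨(v.1, w.1), h⟩ v.2 = w.2

/-- there is a successor map along arcs that is one cycle through all vertices -/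
def Hamiltonian {n : ℕ} (M : Lift n) : Prop :=
  ∃ π : Perm (Fin 3 × Fin n), (∀ v, Arc M v (π v)) ∧ ∀ v w, π.SameCycle v w

open Classical in
/-- the probability that a uniformly random lift is Hamiltonian -/
noncomputable def prob (n : ℕ) : ℝ := #{M : Lift n | Hamiltonian M} / Fintype.card (Lift n)

section
variable {V : Type} [Fintype V] [DecidableEq V]

lemma fr (A : Finset V) {u : V} (hu : u ∈ A) (π : Perm V) : ∃ k, (π ^ (k + 1)) u ∈ A ∧
    ∀ h : Perm V, (∀ v ∉ A, h v = v) → ((h * π) ^ (k + 1)) u = h ((π ^ (k + 1)) u) ∧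
      ∀ j ≤ k, ((h * π) ^ j) u ∈ A → ((h * π) ^ j) u = u := by
  have h0 : ∃ k, (π ^ (k + 1)) u ∈ A := ⟨orderOf π - 1, by
    rwa [Nat.sub_add_cancel (orderOf_pos π), pow_orderOf_eq_one]⟩
  refine ⟨Nat.find h0, Nat.find_spec h0, fun h hh => ?_⟩
  have h1 : ∀ j ≤ Nat.find h0, ((h * π) ^ j) u = (π ^ j) u := fun j hj => by
    induction j with
    | zero => rfl
    | succ j ih =>
      rw [pow_succ', Perm.mul_apply, ih (by omega), Perm.mul_apply, ← Perm.mul_apply π, ← pow_succ']
      exact hh _ (Nat.find_min h0 hj)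
  refine ⟨by rw [pow_succ', Perm.mul_apply, h1 _ le_rfl, pow_succ']; rfl, fun j hj h2 => ?_⟩
  cases j with
  | zero => rfl
  | succ j => exact absurd (h1 _ hj ▸ h2) (Nat.find_min h0 hj)

open Classical in
lemma cnt (n : ℕ) (A : Finset V) (hA : #A = n + 1) (π : Perm V) :
    #{h : Perm V | (∀ v ∉ A, h v = v) ∧ ∀ v w, (h * π).SameCycle v w} ≤ n.factorial := by
  induction n generalizing A π with
  | zero =>
    obtain ⟨u, rfl⟩ := card_eq_one.1 hA
    have : ∀ h : Perm V, (∀ v ∉ ({u} : Finset V), h v = v) → h = 1 := fun h hh => by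
      ext v
      by_contra hv
      have h1 : v = u := by_contra fun h1 => hv (hh v (by simpa using h1))
      exact hv (h.injective (hh _ (by simpa [← h1] using hv)))
    exact card_le_one.2 fun a ha b hb => by
      rw [this a (mem_filter.1 ha).2.1, this b (mem_filter.1 hb).2.1]
  | succ n ih =>
    obtain ⟨u, hu, y, hy, hne⟩ := one_lt_card.1 (show 1 < #A by omega)
    obtain ⟨k, hw, hk⟩ := fr A hu π
    set w := (π ^ (k + 1)) u
    rw [Nat.factorial_succ, ← show #(A.erase u) = n + 1 by rw [card_erase_of_mem hu]; omega]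
    refine card_le_mul_card_image_of_maps_to (f := fun h => h w) (fun h hh => ?_) _
      (fun x hx => ?_) |>.trans_eq (mul_comm _ _)
    · obtain ⟨h1, h2⟩ := (mem_filter.1 hh).2
      refine mem_erase.2 ⟨fun e => ?_, by_contra fun e => e ?_⟩
      · obtain ⟨j, hj⟩ := (h2 u y).exists_nat_pow_eq
        have h3 : Function.IsPeriodicPt (h * π) (k + 1) u := by
          rw [Function.IsPeriodicPt, Function.IsFixedPt, Perm.iterate_eq_pow, (hk h h1).1, e]
        have := h3.iterate_mod_apply j
        rw [Perm.iterate_eq_pow, Perm.iterate_eq_pow, hj] at this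
        exact hne ((hk h h1).2 _ (Nat.le_of_lt_succ (Nat.mod_lt j k.succ_pos))
          (this ▸ hy) ▸ this)
      · rwa [h.injective (h1 _ e)]
    · have hx' := (mem_erase.1 hx).2
      refine le_trans (card_le_card_of_injOn (fun h => h * swap w x) (fun h hh => ?_)
        fun a _ b _ => mul_right_cancel)
        (ih (A.erase x) (by rw [card_erase_of_mem hx']; omega) (swap w x * π))
      simp only [coe_filter, mem_filter, mem_univ, true_and, Set.mem_ofPred_eq] at hh ⊢
      refine ⟨fun v hv => ?_, by simpa [mul_assoc] using hh.1.2⟩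
      by_cases e : v = x
      · simp [e, hh.2]
      · have : v ∉ A := fun h => hv (mem_erase.2 ⟨e, h⟩)
        rw [Perm.mul_apply, swap_apply_of_ne_of_ne (fun e : v = w => this (e ▸ hw)) e, hh.1.1 v this]
end

variable {n : ℕ}

abbrev G (n : ℕ) := Fin 3 → Perm (Fin n)

def sh (α : G n) : Perm (Fin 3 × Fin n) :=
  (prodCongr (Equiv.addRight 1) (Equiv.refl _)).trans (prodCongrRight α)

lemma sh_apply (α : G n) (v : Fin 3 × Fin n) : sh α v = (v.1 + 1, α (v.1 + 1) v.2) := rfl

def D (h : Perm (Fin n)) : Perm (Fin 3 × Fin n) := prodCongrRight (Pi.mulSingle 0 h : G n)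

lemma D_apply (h : Perm (Fin n)) (v : Fin 3 × Fin n) :
    D h v = if v.1 = 0 then (0, h v.2) else v := by
  obtain ⟨x, a⟩ := v
  by_cases e : x = 0 <;> simp [D, e]

lemma sh_mul (h : Perm (Fin n)) (α : G n) : sh (Pi.mulSingle 0 h * α) = D h * sh α := rfl

open Classical in
lemma cyc (η : Perm (Fin 3 × Fin n)) :
    n * #{α : G n | ∀ v w, (sh α * η).SameCycle v w} ≤ Fintype.card (G n) := by
  cases n with
  | zero => simp
  | succ n =>
  have h1 : ∀ α : G (n + 1), #{h : Perm (Fin (n + 1)) | ∀ v w,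
      (sh (Pi.mulSingle 0 h * α) * η).SameCycle v w} ≤ n.factorial := fun α => by
    refine le_trans (card_le_card_of_injOn D (fun h hh => ?_) fun a _ b _ e => ?_)
      (cnt n ({0} ×ˢ univ) (by simp) (sh α * η))
    · simp only [coe_filter, mem_univ, true_and, Set.mem_ofPred_eq] at hh ⊢
      exact ⟨fun v hv => by rw [D_apply, if_neg (fun e => hv (mem_product.2 ⟨mem_singleton.2 e, mem_univ _⟩))], hh⟩
    · ext1 c
      simpa [D_apply] using DFunLike.congr_fun e (0, c)
  have h2 := sum_le_card_nsmul univ _ _ fun α _ => h1 α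
  simp only [card_filter] at h2
  rw [sum_comm] at h2
  replace h2 := (sum_congr rfl fun h _ => Equiv.sum_comp
    (Equiv.mulLeft (Pi.mulSingle 0 h : G (n + 1)))
    fun α => if ∀ v w, (sh α * η).SameCycle v w then 1 else 0).ge.trans h2
  rw [sum_const, ← card_filter, card_univ, card_univ, Fintype.card_perm, Fintype.card_fin,
    Nat.factorial_succ, smul_eq_mul, smul_eq_mul] at h2
  exact Nat.le_of_mul_le_mul_right (by linarith) n.factorial_pos

open Classical in
noncomputable def Mn (γ : G n) : Finset (Fin n) :=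
  {a | ∀ b ≤ a, (sh γ).SameCycle (0, a) (0, b) → b = a}

open Classical in
lemma cardJ (γ : G n) :
    #{η : Perm (Fin 3 × Fin n) | ∀ v, η v = v ∨ η v = sh γ v} ≤ 2 ^ #(Mn γ) := by
  rw [← card_powerset]
  refine card_le_card_of_injOn (fun η => {a ∈ Mn γ | η (0, a) = (0, a)})
    (fun _ _ => mem_coe.2 (mem_powerset.2 (filter_subset _ _))) ?_
  have h1 : ∀ η : Perm (Fin 3 × Fin n), (∀ v, η v = v ∨ η v = sh γ v) → ∀ v w,
      (sh γ).SameCycle v w → η w = w → η v = v := fun η h v w hs => by
    obtain ⟨k, rfl⟩ := hs.exists_nat_pow_eq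
    clear hs
    induction k with
    | zero => exact id
    | succ k ih =>
      rw [pow_succ', Perm.mul_apply]
      refine fun e => ih ((h _).elim id fun e' => ?_)
      rw [e', ← η.injective (e'.trans e.symm)]
  have h2 : ∀ v, ∃ a ∈ Mn γ, (sh γ).SameCycle v (0, a) := fun v => by
    obtain ⟨a, ha, h⟩ := exists_min_image {a | (sh γ).SameCycle v (0, a)} id (by
      obtain ⟨x, b⟩ := v
      fin_cases x
      exacts [⟨_, mem_filter.2 ⟨mem_univ _, 0, rfl⟩⟩, ⟨γ 0 (γ 2 b), mem_filter.2 ⟨mem_univ _, 2, by simp [sq, sh_apply]⟩⟩,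
        ⟨_, mem_filter.2 ⟨mem_univ _, 1, rfl⟩⟩])
    have ha := (mem_filter.1 ha).2
    exact ⟨a, mem_filter.2 ⟨mem_univ _, fun b hb hs =>
      hb.antisymm (h b (mem_filter.2 ⟨mem_univ _, ha.trans hs⟩))⟩, ha⟩
  intro η hη θ hθ e
  have hη := (mem_filter.1 hη).2
  have hθ := (mem_filter.1 hθ).2
  ext1 v
  obtain ⟨a, ha, h⟩ := h2 v
  have e1 := Finset.ext_iff.1 e a
  simp only [mem_filter, ha, true_and] at e1
  have : η v = v ↔ θ v = v := ⟨fun f => h1 θ hθ _ _ h (e1.1 (h1 η hη _ _ h.symm f)),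
    fun f => h1 η hη _ _ h (e1.2 (h1 θ hθ _ _ h.symm f))⟩
  have := hη v
  have := hθ v
  grind

lemma ET (T : Finset (Fin n)) :
    (#{γ : G n | T ⊆ Mn γ} : ℝ) ≤ Fintype.card (G n) * ∏ a ∈ T, 1 / (a + 1 : ℝ) := by
  induction T using Finset.induction_on_min with
  | empty => simp
  | insert a T hT ih =>
    rw [prod_insert fun h => (hT a h).false, mul_left_comm, one_div_mul_eq_div,
      le_div_iff₀ (by positivity)]
    refine le_trans ?_ ih
    have hs : ∀ b v, b ≤ a → v ∉ {0} ×ˢ Iic a → D (swap a b) v = v := fun b v hb hv => by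
      rw [D_apply]
      split_ifs with e
      · simp only [mem_product, mem_singleton, e, true_and, mem_Iic, not_le] at hv
        rw [swap_apply_of_ne_of_ne hv.ne' (hb.trans_lt hv).ne', ← e]
      · rfl
    have := card_le_card_of_injOn (s := univ.filter (fun γ : G n => insert a T ⊆ Mn γ) ×ˢ Iic a)
      (t := {γ : G n | T ⊆ Mn γ}) 
      (fun p : G n × Fin n => (Pi.mulSingle (0 : Fin 3) (swap a p.2) : G n) * p.1) ?_ ?_
    · rw [card_product, Fin.card_Iic] at this
      exact_mod_cast this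
    · rintro ⟨γ, b⟩ h
      simp only [coe_product, coe_filter, mem_univ, true_and, Set.mem_prod, Set.mem_ofPred_eq,
        coe_Iic, Set.mem_Iic] at h ⊢
      intro c hc
      have h1 := (mem_filter.1 (h.1 (mem_insert_of_mem hc))).2
      refine mem_filter.2 ⟨mem_univ _, fun d hd hs' => h1 d hd ?_⟩
      obtain ⟨k, hk⟩ := hs'.exists_nat_pow_eq
      refine ⟨k, ?_⟩
      rw [← hk, sh_mul, zpow_natCast]
      clear hk
      induction k with
      | zero => rfl
      | succ k ih =>
        rw [pow_succ' (_ * _), Perm.mul_apply, ← ih, Perm.mul_apply, ← Perm.mul_apply (sh γ),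
          ← pow_succ', hs b _ h.2]
        intro hm
        simp only [mem_product, mem_singleton, mem_Iic] at hm
        have h2 := hm.2.trans_lt (hT c hc)
        exact h2.ne (h1 _ h2.le ⟨(k + 1 : ℕ), Prod.ext hm.1 rfl⟩)
    · rintro ⟨γ, b⟩ h ⟨δ, c⟩ h' e
      simp only [coe_product, coe_filter, mem_univ, true_and, Set.mem_prod, Set.mem_ofPred_eq,
        coe_Iic, Set.mem_Iic] at h h' e
      have key : ∀ γ : G n, insert a T ⊆ Mn γ → ∀ k : ℕ, (sh γ ^ k) (0, a) ∈ {0} ×ˢ Iic a →
          (sh γ ^ k) (0, a) = (0, a) := fun γ h k hm => by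
        simp only [mem_product, mem_singleton, mem_Iic] at hm
        exact Prod.ext hm.1 ((mem_filter.1 (h (mem_insert_self _ _))).2 _ hm.2
          ⟨k, Prod.ext hm.1 rfl⟩)
      obtain ⟨k, h1, h2⟩ := fr ({0} ×ˢ Iic a) (u := (0, a)) (by simp) (sh γ)
      have e1 : sh δ = (D (swap a c) * D (swap a b)) * sh γ := by
        rw [mul_assoc, ← sh_mul, e, ← sh_mul, ← mul_assoc, ← Pi.mulSingle_mul]
        simp
      have h3 := (h2 (D (swap a c) * D (swap a b)) fun v hv => by
        rw [Perm.mul_apply, hs b v h.2 hv, hs c v h'.2 hv]).1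
      rw [← e1, key γ h.1 _ h1] at h3
      simp only [Perm.mul_apply, D_apply, if_true, swap_apply_left] at h3
      have h4 := key δ h'.1 (k + 1) (by
        rw [h3, swap_apply_def]
        split_ifs <;> simp [h.2, h'.2])
      have : b = c := (swap a c).injective (by simpa [h3] using h4)
      subst this
      rw [mul_left_cancel e]

lemma moment : ∑ γ : G n, (1.42 : ℝ) ^ #(Mn γ) ≤
    Fintype.card (G n) * Real.exp (0.42 * (1 + Real.log n)) := by
  have h1 : ∀ γ : G n, (1.42 : ℝ) ^ #(Mn γ) =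
      ∑ T : Finset (Fin n), if T ⊆ Mn γ then 0.42 ^ #T else 0 := fun γ => by
    rw [show (1.42 : ℝ) = 1 + 0.42 by norm_num, ← prod_const, prod_one_add, ← sum_filter]
    exact sum_congr (by ext; simp) fun _ _ => prod_const _
  simp only [h1]
  rw [sum_comm]
  simp only [← sum_filter, sum_const, nsmul_eq_mul]
  refine (sum_le_sum fun T _ => mul_le_mul_of_nonneg_right (ET T) (by positivity)).trans ?_
  simp only [mul_assoc, ← mul_sum, ← prod_const, ← prod_mul_distrib]
  rw [← powerset_univ, ← prod_one_add]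
  refine mul_le_mul_of_nonneg_left ((Real.prod_one_add_le_exp_sum _ fun _ => by positivity).trans
    (Real.exp_le_exp.2 ?_)) (by positivity)
  have := harmonic_le_one_add_log n
  rw [harmonic, ← Fin.sum_univ_eq_sum_range fun i => ((i + 1 : ℕ) : ℚ)⁻¹] at this
  push_cast at this
  simp only [one_div, ← sum_mul]
  linarith

lemma bound (hn : 0 < n) : prob n ≤ Real.exp (0.42 - 0.08 * Real.log n) := by
  classical
  let Good : G n → G n → Prop := fun γ α => ∃ η : Perm (Fin 3 × Fin n),
    (∀ v, η v = v ∨ η v = sh γ v) ∧ ∀ v w, (sh α * η).SameCycle v w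
  have c0 : (0 : ℝ) < Fintype.card (G n) := by exact_mod_cast Fintype.card_pos
  have n0 : (0 : ℝ) < n := by exact_mod_cast hn
  have h1 : ∀ γ, (#{α | Good γ α} : ℝ) ≤
      Fintype.card (G n) * Real.exp (-(0.5 * Real.log n)) * 1.42 ^ #(Mn γ) := fun γ => by
    have h1 : n * #{α | Good γ α} ≤ 2 ^ #(Mn γ) * Fintype.card (G n) := by
      have : ({α | Good γ α} : Finset _) = Finset.biUnion
          {η : Perm (Fin 3 × Fin n) | ∀ v, η v = v ∨ η v = sh γ v}
          fun η => {α | ∀ v w, (sh α * η).SameCycle v w} := by ext; simp [Good]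
      rw [this]
      refine (Nat.mul_le_mul_left n card_biUnion_le).trans ?_
      rw [mul_sum]
      refine (sum_le_card_nsmul _ _ _ fun η _ => by convert cyc η).trans ?_
      exact Nat.mul_le_mul_right _ (by convert cardJ γ)
    have h2 : (#{α | Good γ α} : ℝ) ≤ Fintype.card (G n) := by exact_mod_cast card_le_univ _
    have h3 : (n : ℝ) * #{α | Good γ α} ≤ 2 ^ #(Mn γ) * Fintype.card (G n) := by exact_mod_cast h1
    have h4 : (2 : ℝ) ^ #(Mn γ) ≤ (1.42 ^ #(Mn γ)) ^ 2 := by
      rw [← pow_mul, mul_comm, pow_mul]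
      exact pow_le_pow_left₀ (by norm_num) (by norm_num) _
    have h5 : n * Real.exp (-(0.5 * Real.log n)) ^ 2 = 1 := by
      rw [← Real.exp_nat_mul, ← Real.exp_log n0, ← Real.exp_add, Real.log_exp, ← Real.exp_zero]
      congr 1
      norm_num
      ring
    refine (sq_le_sq₀ (by positivity) (by positivity)).1 ?_
    rw [← mul_le_mul_iff_right₀ n0, mul_pow, mul_pow]
    calc (n : ℝ) * #{α | Good γ α} ^ 2 = n * #{α | Good γ α} * #{α | Good γ α} := by ring
      _ ≤ (1.42 ^ #(Mn γ)) ^ 2 * Fintype.card (G n) * Fintype.card (G n) := by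
        exact mul_le_mul (h3.trans (by gcongr)) h2 (by positivity) (by positivity)
      _ = _ := by linear_combination -(Fintype.card (G n) * 1.42 ^ #(Mn γ)) ^ 2 * h5
  have h2 : #{M : Lift n | Hamiltonian M} ≤ ∑ γ, #{α | Good γ α} := by
    rw [← card_sigma]
    refine card_le_card_of_injOn (fun M => ⟨fun y => (M ⟨(y, y + 1), by revert y; decide⟩)⁻¹ *
      M ⟨(y + 2, y + 1), by revert y; decide⟩, fun x => M ⟨(x + 2, x), by revert x; decide⟩⟩)
      (fun M hM => ?_) fun M _ N _ e => ?_
    · obtain ⟨π, h1, h2⟩ := (mem_filter.1 hM).2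
      refine mem_coe.2 (mem_sigma.2 ⟨mem_univ _, mem_filter.2 ⟨mem_univ _, (sh _)⁻¹ * π,
        fun v => ?_, by rwa [mul_inv_cancel_left]⟩⟩)
      obtain ⟨h3, h4⟩ := h1 v
      simp only [Perm.mul_apply, Perm.inv_eq_iff_eq]
      generalize π v = w at h3 h4
      obtain ⟨x, a⟩ := v
      obtain ⟨y, b⟩ := w
      dsimp only at h3 h4
      subst h4
      fin_cases x <;> fin_cases y <;> simp [sh_apply] at h3 ⊢
    · simp only [Sigma.mk.injEq, heq_eq_eq, funext_iff] at e
      ext1 ⟨⟨x, y⟩, h⟩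
      have a0 := e.1 0
      have a1 := e.1 1
      have a2 := e.1 2
      have b0 := e.2 0
      have b1 := e.2 1
      have b2 := e.2 2
      fin_cases x <;> fin_cases y <;> first | exact (h rfl).elim | simp_all
  have h3 : (Fintype.card (Lift n) : ℝ) = Fintype.card (G n) * Fintype.card (G n) := by
    rw [Fintype.card_fun, Fintype.card_fun, show Fintype.card {e : Fin 3 × Fin 3 // e.1 ≠ e.2}
      = 6 by decide, Fintype.card_fin]
    push_cast
    ring
  rw [prob, h3, div_le_iff₀ (by positivity)]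
  refine (Nat.cast_le.2 h2).trans ?_
  push_cast
  refine (sum_le_sum fun γ _ => h1 γ).trans ?_
  rw [← mul_sum]
  refine (mul_le_mul_of_nonneg_left moment (by positivity)).trans_eq ?_
  rw [show 0.42 - 0.08 * Real.log n = -(0.5 * Real.log n) + 0.42 * (1 + Real.log n) by ring,
    Real.exp_add]
  ring

theorem result : Tendsto prob atTop (𝓝 0) := by
  refine squeeze_zero' (.of_forall fun n => by unfold prob; positivity)
    ((eventually_gt_atTop 0).mono fun n => bound) (Real.tendsto_exp_atBot.comp ?_)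
  exact tendsto_atBot_add_const_left _ _ (tendsto_neg_atTop_atBot.comp
    ((Real.tendsto_log_atTop.comp tendsto_natCast_atTop_atTop).const_mul_atTop (by norm_num)))

end Pool.Agent.Results.MP_ff6929_pr.NotHamiltonian
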